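import Pool.Agent.H.MP_e83d06_co.A
import Pool.Agent.Lib.helper1.EList

namespace Pool.Agent.Results.MP_e83d06_co.Counter
open Pool.Agent.Lib.helper1.Subtree Pool.Agent.Lib.helper1.EList Pool.Agent.H.MP_e83d06_co

noncomputable def mu {V : Type} (G : SimpleGraph V) : ℚ :=
  ((∑ᶠ T : {T : G.Subgraph // T.coe.IsTree}, T.1.verts.ncard : ℕ) : ℚ) /
    (Nat.card {T : G.Subgraph // T.coe.IsTree} : ℚ)

def f (x : Fin 84) : Fin 83 := if h : x.val < 83 then ⟨x.val, h⟩ else ⟨55, by decide⟩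

lemma s1 : simple L1 = true := by decide +kernel

lemma s0 : simple L0 = true := by decide +kernel

lemma adj0 (x y : Fin 83) : ((gr L1 s1).map f).Adj x y ↔ (x, y) ∈ L0 ∨ (y, x) ∈ L0 := by
  have h1 : ∀ e ∈ L1, f e.1 = f e.2 ∨ (f e.1, f e.2) ∈ L0 := by
    have : every (fun e => Nat.beq (f e.1).val (f e.2).val || has (f e.1).val (f e.2).val L0) L1
      = true := by decide +kernel
    intro e he
    rcases Bool.or_eq_true_iff.1 ((every_iff _ _).1 this e he) with h | h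
    · exact Or.inl (Fin.ext (Nat.eq_of_beq_eq_true h))
    · exact Or.inr ((has_iff _ _ _).1 h)
  have h2 : ∀ e ∈ L0, e.1 ≠ e.2 ∧ ∃ d ∈ L1, f d.1 = e.1 ∧ f d.2 = e.2 := by
    have : every (fun e => has e.1.val e.2.val L1) L0 = true := by decide +kernel
    intro e he
    refine ⟨ne_of_lt ((simple_spec L0 s0).2 e he), (e.1.castSucc, e.2.castSucc),
      (has_iff _ _ _).1 ((every_iff _ _).1 this e he), ?_, ?_⟩ <;> simp [f]
  constructor
  · rintro ⟨hne, a, b, h | h, rfl, rfl⟩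
    · exact Or.inl ((h1 _ h).resolve_left hne)
    · exact Or.inr ((h1 _ h).resolve_left (Ne.symm hne))
  · rintro (h | h)
    · obtain ⟨h3, d, hd, h4, h5⟩ := h2 _ h
      exact ⟨h3, d.1, d.2, Or.inl hd, h4, h5⟩
    · obtain ⟨h3, d, hd, h4, h5⟩ := h2 _ h
      exact ⟨h3.symm, d.2, d.1, Or.inr hd, h5, h4⟩

theorem result : ∃ (n m : ℕ) (G : SimpleGraph (Fin n)) (u v : Fin n) (f : Fin n → Fin m),
    G.Connected ∧ G.Adj u v ∧ Function.Surjective f ∧
      (∀ a b, f a = f b ↔ a = b ∨ s(a, b) = s(u, v)) ∧ mu G - mu (G.map f) < 1 / 3 := by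
  refine ⟨84, 83, gr L1 s1, ⟨55, by decide⟩, ⟨83, by decide⟩, f, conn L1 s1 (by decide +kernel),
    Or.inl ((has_iff _ _ _).1 (by decide +kernel)), ?_, ?_, ?_⟩
  · intro y
    exact ⟨⟨y.val, by omega⟩, by simp [f]⟩
  · intro a b
    have ha := a.isLt
    have hb := b.isLt
    simp only [Sym2.eq_iff, Fin.ext_iff, f]
    split_ifs <;> simp only [true_iff] <;> omega
  · have e1 := (sum_trees_run Fin.val Fin.val_injective (gr L1 s1) L1
      (nodup L1 s1) (fun _ _ => Iff.rfl) 84 (le_of_eq (by decide +kernel)) _ _).trans c1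
    have e0 := (sum_trees_run Fin.val Fin.val_injective ((gr L1 s1).map f) L0
      (nodup L0 s0) adj0 84 (Nat.le_succ_of_le (le_of_eq (by decide +kernel))) _ _).trans c0
    obtain ⟨a1, b1⟩ := unpack _ _ _ _ (by norm_num) (by norm_num) e1
    obtain ⟨a0, b0⟩ := unpack _ _ _ _ (by norm_num) (by norm_num) e0
    unfold mu
    rw [a1, b1, a0, b0]
    norm_num

end Pool.Agent.Results.MP_e83d06_co.Counter
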